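import Mathlib

/-!
# Hensel's lemma in complete valued fields

Project PJ (helper352), part of PJ-LOC2 (helper704).
-/

set_option autoImplicit false
set_option linter.all false

open WithZero Filter Topology Polynomial

namespace Pool.Agent.N704.PJ

section taylor

variable {E Γ : Type*} [Field E] [LinearOrderedCommGroupWithZero Γ] (v : Valuation E Γ)

theorem taylor (p : E[X]) (hp : ∀ i, v (p.coeff i) ≤ 1) {x y : E} (hx : v x ≤ 1) (hy : v y ≤ 1) :
    ∃ r, v r ≤ 1 ∧ p.eval (x + y) = p.eval x + (derivative p).eval x * y + r * y ^ 2 := by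
  obtain ⟨q, hq⟩ : ∃ q : v.integer[X], q.map v.integer.subtype = p := by
    refine (mem_lifts p).1 ((lifts_iff_coeff_lifts p).2 fun n => ?_)
    exact ⟨⟨p.coeff n, hp n⟩, rfl⟩
  obtain ⟨r, hr⟩ := binomExpansion q (⟨x, hx⟩ : v.integer) ⟨y, hy⟩
  refine ⟨r, r.2, ?_⟩
  have h := congrArg v.integer.subtype hr
  simp only [map_add, map_mul, map_pow] at h
  rw [← hq]
  rw [derivative_map, eval_map, eval_map, eval_map]
  have e1 : eval₂ v.integer.subtype (x + y) q =
      v.integer.subtype (q.eval ((⟨x, hx⟩ : v.integer) + ⟨y, hy⟩)) := by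
    rw [← eval₂_hom]; rfl
  have e2 : eval₂ v.integer.subtype x q = v.integer.subtype (q.eval (⟨x, hx⟩ : v.integer)) := by
    rw [← eval₂_hom]; rfl
  have e3 : eval₂ v.integer.subtype x (derivative q) =
      v.integer.subtype ((derivative q).eval (⟨x, hx⟩ : v.integer)) := by
    rw [← eval₂_hom]; rfl
  rw [e1, e2, e3]
  exact h

theorem lip (p : E[X]) (hp : ∀ i, v (p.coeff i) ≤ 1) {x y : E} (hx : v x ≤ 1) (hy : v y ≤ 1) :
    v (p.eval x - p.eval y) ≤ v (x - y) := by
  obtain ⟨q, hq⟩ : ∃ q : v.integer[X], q.map v.integer.subtype = p := by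
    refine (mem_lifts p).1 ((lifts_iff_coeff_lifts p).2 fun n => ?_)
    exact ⟨⟨p.coeff n, hp n⟩, rfl⟩
  obtain ⟨r, hr⟩ := evalSubFactor q (⟨x, hx⟩ : v.integer) ⟨y, hy⟩
  have h := congrArg v.integer.subtype hr
  simp only [map_sub, map_mul] at h
  have e2 : ∀ (z : E) (hz : v z ≤ 1), p.eval z = v.integer.subtype (q.eval (⟨z, hz⟩ : v.integer)) := by
    intro z hz
    rw [← hq, eval_map, ← eval₂_hom]; rfl
  rw [e2 x hx, e2 y hy, h, map_mul]
  calc _ ≤ 1 * v (v.integer.subtype ⟨x, hx⟩ - v.integer.subtype ⟨y, hy⟩) :=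
        mul_le_mul' r.2 le_rfl
    _ = v (x - y) := by rw [one_mul]; rfl

theorem eval_le (p : E[X]) (hp : ∀ i, v (p.coeff i) ≤ 1) {x : E} (hx : v x ≤ 1) :
    v (p.eval x) ≤ 1 := by
  rw [eval_eq_sum_range]
  refine v.map_sum_le fun i _ => ?_
  rw [map_mul, map_pow]
  exact mul_le_one' (hp i) (pow_le_one' hx i)

theorem eval_lt (p : E[X]) (hp : ∀ i, v (p.coeff i) < 1) {x : E} (hx : v x ≤ 1) :
    v (p.eval x) < 1 := by
  rw [eval_eq_sum_range]
  refine v.map_sum_lt one_ne_zero fun i _ => ?_
  rw [map_mul, map_pow]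
  exact lt_of_le_of_lt (mul_le_mul' le_rfl (pow_le_one' hx i)) (by rw [mul_one]; exact hp i)

theorem der_le (p : E[X]) (hp : ∀ i, v (p.coeff i) ≤ 1) (i : ℕ) :
    v ((derivative p).coeff i) ≤ 1 := by
  obtain ⟨q, hq⟩ : ∃ q : v.integer[X], q.map v.integer.subtype = p := by
    refine (mem_lifts p).1 ((lifts_iff_coeff_lifts p).2 fun n => ?_)
    exact ⟨⟨p.coeff n, hp n⟩, rfl⟩
  rw [← hq, derivative_map, coeff_map]
  exact ((derivative q).coeff i).2

end taylor

section

variable {L : Type*} [Field L] [Valued L (WithZero (Multiplicative ℤ))]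

theorem nonarch : NonarchimedeanAddGroup L where
  is_nonarchimedean U hU := by
    obtain ⟨γ, hγ⟩ := Valued.mem_nhds_zero.1 hU
    refine ⟨⟨Valuation.ltAddSubgroup (Valued.v (R := L)).restrict γ, ?_⟩, ?_⟩
    · exact Valued.isOpen_ball L γ.1
    · intro x hx
      exact hγ hx

/-- Hensel's lemma. -/
theorem hensel [CompleteSpace L] [T0Space L] (p : L[X])
    (hp : ∀ i, Valued.v (Γ₀ := WithZero (Multiplicative ℤ)) (p.coeff i) ≤ 1) {a : L}
    (ha : Valued.v (Γ₀ := WithZero (Multiplicative ℤ)) a ≤ 1)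
    (h1 : Valued.v (Γ₀ := WithZero (Multiplicative ℤ)) (p.eval a) < 1)
    (h2 : Valued.v (Γ₀ := WithZero (Multiplicative ℤ)) ((derivative p).eval a) = 1) :
    ∃ z : L, p.eval z = 0 ∧ Valued.v (Γ₀ := WithZero (Multiplicative ℤ)) (z - a) < 1 := by
  set d := (derivative p).eval a with hd
  have hd0 : d ≠ 0 := by
    intro h
    rw [h, map_zero] at h2
    exact zero_ne_one h2
  let T : L → L := fun z => z - p.eval z / d
  obtain ⟨z, z0, zs⟩ : ∃ z : ℕ → L, z 0 = a ∧ ∀ n, z (n + 1) = T (z n) :=
    ⟨fun n => Nat.rec a (fun _ y => T y) n, rfl, fun _ => rfl⟩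
  set δ := Valued.v (Γ₀ := WithZero (Multiplicative ℤ)) (p.eval a) with hδ
  have near : ∀ y : L, Valued.v (Γ₀ := WithZero (Multiplicative ℤ)) (y - a) ≤ δ →
      Valued.v (Γ₀ := WithZero (Multiplicative ℤ)) y ≤ 1 := by
    intro y hy
    have e : y = (y - a) + a := by ring
    rw [e]
    exact (Valued.v.map_add _ _).trans (max_le (hy.trans h1.le) ha)
  have hT : ∀ y y' : L, Valued.v (Γ₀ := WithZero (Multiplicative ℤ)) (y - a) ≤ δ →
      Valued.v (Γ₀ := WithZero (Multiplicative ℤ)) (y' - a) ≤ δ →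
      Valued.v (Γ₀ := WithZero (Multiplicative ℤ)) (T y - T y') ≤
        δ * Valued.v (Γ₀ := WithZero (Multiplicative ℤ)) (y - y') := by
    intro y y' hy hy'
    have hyy : Valued.v (Γ₀ := WithZero (Multiplicative ℤ)) (y - y') ≤ δ := by
      have e : y - y' = (y - a) - (y' - a) := by ring
      rw [e]
      exact (Valued.v.map_sub _ _).trans (max_le hy hy')
    obtain ⟨r, hr, hr2⟩ := taylor (Valued.v (R := L)) p hp (near y' hy') (hyy.trans h1.le)
    have h3 := lip (Valued.v (R := L)) (derivative p) (der_le (Valued.v (R := L)) p hp)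
      (near y' hy') ha
    rw [← hd] at h3
    rw [add_sub_cancel] at hr2
    have e : T y - T y' = (-(((derivative p).eval y' - d) + r * (y - y')) / d) * (y - y') := by
      simp only [T]
      rw [hr2]
      field_simp
      ring
    rw [e, map_mul, map_div₀, h2, div_one, Valuation.map_neg]
    refine mul_le_mul' ?_ le_rfl
    refine (Valued.v.map_add _ _).trans (max_le (h3.trans hy') ?_)
    rw [map_mul]
    calc _ ≤ 1 * δ := mul_le_mul' hr hyy
      _ = δ := one_mul _
  have hTa : T a - a = -(p.eval a) / d := by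
    simp only [T]; ring
  have hA : ∀ n, Valued.v (Γ₀ := WithZero (Multiplicative ℤ)) (z n - a) ≤ δ := by
    intro n
    induction n with
    | zero => rw [z0, sub_self, map_zero]; exact zero_le
    | succ n ih =>
      have h1' : Valued.v (Γ₀ := WithZero (Multiplicative ℤ)) (a - a) ≤ δ := by
        rw [sub_self, map_zero]; exact zero_le
      have h3 := hT (z n) a ih h1'
      have e : z (n + 1) - a = (T (z n) - T a) + (T a - a) := by rw [zs]; ring
      rw [e]
      refine (Valued.v.map_add _ _).trans (max_le ?_ ?_)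
      · refine h3.trans ?_
        exact mul_le_of_le_one_right' (ih.trans h1.le)
      · rw [hTa, map_div₀, h2, div_one, Valuation.map_neg]
  have hB : ∀ n, Valued.v (Γ₀ := WithZero (Multiplicative ℤ)) (z (n + 1) - z n) ≤
      Valued.v (Γ₀ := WithZero (Multiplicative ℤ)) ((p.eval a) ^ (n + 1)) := by
    intro n
    induction n with
    | zero =>
      rw [zero_add, pow_one, zs, z0, hTa, map_div₀, h2, div_one, Valuation.map_neg]
    | succ n ih =>
      have h3 := hT (z (n + 1)) (z n) (hA _) (hA _)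
      rw [← zs, ← zs] at h3
      refine h3.trans ?_
      rw [pow_succ' (p.eval a), map_mul]
      exact mul_le_mul_right ih _
  haveI := nonarch (L := L)
  have hlim : Tendsto (fun n => z (n + 1) - z n) atTop (𝓝 0) := by
    have h3 : Tendsto (fun n : ℕ => (p.eval a) ^ (n + 1)) atTop (𝓝 0) :=
      (Valued.tendsto_zero_pow_of_v_lt_one h1).comp (tendsto_add_atTop_nat 1)
    rw [(Valued.hasBasis_nhds_zero L _).tendsto_right_iff] at h3 ⊢
    intro γ hγ
    filter_upwards [h3 γ hγ] with n hn
    have h4 : (Valued.v (R := L)).restrict (z (n + 1) - z n) ≤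
        (Valued.v (R := L)).restrict ((p.eval a) ^ (n + 1)) :=
      (Valuation.restrict_le_iff _).2 (hB n)
    exact lt_of_le_of_lt h4 hn
  have hcau : CauchySeq z := NonarchimedeanAddGroup.cauchySeq_of_tendsto_sub_nhds_zero hlim
  obtain ⟨w, hw⟩ := cauchySeq_tendsto_of_complete hcau
  have hTc : Continuous T := by
    have : Continuous fun y : L => y - p.eval y * d⁻¹ := by
      have := p.continuous
      fun_prop
    simpa only [T, div_eq_mul_inv] using this
  have hw1 : Tendsto (fun n => z (n + 1)) atTop (𝓝 w) := hw.comp (tendsto_add_atTop_nat 1)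
  have hw2 : Tendsto (fun n => z (n + 1)) atTop (𝓝 (T w)) := by
    simp only [zs]
    exact (hTc.tendsto w).comp hw
  haveI : T2Space L := inferInstance
  have hfix : T w = w := tendsto_nhds_unique hw2 hw1
  refine ⟨w, ?_, ?_⟩
  · have h5 : p.eval w / d = 0 := by
      have : w - p.eval w / d = w := hfix
      linear_combination -this
    rcases div_eq_zero_iff.1 h5 with h6 | h6
    · exact h6
    · exact absurd h6 hd0
  · have hcl : IsClosed {y : L | (Valued.v (R := L)).restrict (y - a) < 1} := by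
      have h7 := Valued.isClosed_ball L (1 : MonoidWithZeroHom.ValueGroup₀
        (.ofClass (Valued.v (R := L))))
      exact h7.preimage (f := fun y : L => y - a) (by fun_prop)
    have h8 : w ∈ {y : L | (Valued.v (R := L)).restrict (y - a) < 1} := by
      refine hcl.mem_of_tendsto hw (Eventually.of_forall fun n => ?_)
      show (Valued.v (R := L)).restrict (z n - a) < 1
      rw [Valuation.restrict_lt_one_iff]
      exact lt_of_le_of_lt (hA n) h1
    have h9 : (Valued.v (R := L)).restrict (w - a) < 1 := h8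
    rwa [Valuation.restrict_lt_one_iff] at h9

end

end Pool.Agent.N704.PJ
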