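import Pool.Agent.N704.PJ.One

/-!
# Local analysis at the primes not dividing `D`

Project PJ (helper352), part PJ-LOC1 (helper704).
-/

set_option autoImplicit false
set_option linter.all false

open Polynomial IsDedekindDomain WithZero Matrix
open Pool.Agent.N874.PP (Ov Ev Sq1 U0)
open Pool.Agent.N352.PJ
open scoped Classical NNReal

namespace Pool.Agent.N704.PJ

open Pool.Agent.N704.PP (vx near sq1_of ev_of ev_of_sq1 val_int valO_lt_one valO_le_one valO_eq_one
  exists_inv_mod)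

section wv

variable {R F : Type} [CommRing R] [IsDedekindDomain R] [Field F] [Algebra R F]
  [IsFractionRing R F] {v : HeightOneSpectrum R}
  {w : Valuation (AlgebraicClosure (v.adicCompletion F)) NNReal} {c : NNReal}

/-- The property of `w` in `S_EXT`. -/
def WV (w : Valuation (AlgebraicClosure (v.adicCompletion F)) NNReal) (c : NNReal) : Prop :=
  ∀ (x : v.adicCompletion F) (n : ℤ),
      Valued.v (Γ₀ := WithZero (Multiplicative ℤ)) x = exp (-n) →
        w (algebraMap (v.adicCompletion F) (AlgebraicClosure (v.adicCompletion F)) x) = c ^ n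

theorem exists_exp (x : v.adicCompletion F) (hx : x ≠ 0) : ∃ n : ℤ,
    Valued.v (Γ₀ := WithZero (Multiplicative ℤ)) x = exp (-n) := by
  have hx' : Valued.v (Γ₀ := WithZero (Multiplicative ℤ)) x ≠ 0 :=
      (Valuation.ne_zero_iff _).2 hx
  exact ⟨-log (Valued.v (Γ₀ := WithZero (Multiplicative ℤ)) x), by rw [neg_neg, exp_log hx']⟩

theorem exp_le_one (n : ℤ) : (exp (-n) : WithZero (Multiplicative ℤ)) ≤ 1 ↔ 0 ≤ n := by
  rw [← exp_zero, exp_le_exp]; omega

theorem exp_lt_one (n : ℤ) : (exp (-n) : WithZero (Multiplicative ℤ)) < 1 ↔ 0 < n := by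
  rw [← exp_zero, exp_lt_exp]; omega

theorem zpow_le_one (h0 : 0 < c) (h1 : c < 1) (n : ℤ) : c ^ n ≤ 1 ↔ 0 ≤ n := by
  rw [← zpow_zero c, zpow_le_zpow_iff_right_of_lt_one₀ h0 h1]

theorem zpow_lt_one (h0 : 0 < c) (h1 : c < 1) (n : ℤ) : c ^ n < 1 ↔ 0 < n := by
  rw [← zpow_zero c, zpow_lt_zpow_iff_right_of_lt_one₀ h0 h1]

theorem wv_le (hc : CV (v.adicCompletion F) w c) (hw : WV w c) (x : v.adicCompletion F) :
    w (ac x) ≤ 1 ↔ Valued.v (Γ₀ := WithZero (Multiplicative ℤ)) x ≤ 1 := by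
  by_cases hx : x = 0
  · subst hx
    simp
  · obtain ⟨n, hn⟩ := exists_exp x hx
    rw [hn, ac, hw x n hn, zpow_le_one hc.c0 hc.c1, exp_le_one]

theorem wv_lt (hc : CV (v.adicCompletion F) w c) (hw : WV w c) (x : v.adicCompletion F) :
    w (ac x) < 1 ↔ Valued.v (Γ₀ := WithZero (Multiplicative ℤ)) x < 1 := by
  by_cases hx : x = 0
  · subst hx
    simp
  · obtain ⟨n, hn⟩ := exists_exp x hx
    rw [hn, ac, hw x n hn, zpow_lt_one hc.c0 hc.c1, exp_lt_one]

theorem wv_eq (hc : CV (v.adicCompletion F) w c) (hw : WV w c) (x : v.adicCompletion F) :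
    w (ac x) = 1 ↔ Valued.v (Γ₀ := WithZero (Multiplicative ℤ)) x = 1 := by
  have h1 := wv_le hc hw x
  have h2 := wv_lt hc hw x
  constructor
  · intro h
    refine le_antisymm (h1.1 h.le) (not_lt.1 fun h3 => ?_)
    exact absurd (h2.2 h3) (by rw [h]; exact lt_irrefl _)
  · intro h
    refine le_antisymm (h1.2 h.le) (not_lt.1 fun h3 => ?_)
    exact absurd (h2.1 h3) (by rw [h]; exact lt_irrefl _)

/-- Equality of `w` and squares. -/
theorem wv_sq (hc : CV (v.adicCompletion F) w c) (hw : WV w c) {x y : v.adicCompletion F}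
    (hx : x ≠ 0) (hy : y ≠ 0) (h : w (ac x) = w (ac y) ^ 2) :
    Valued.v (Γ₀ := WithZero (Multiplicative ℤ)) x =
      Valued.v (Γ₀ := WithZero (Multiplicative ℤ)) y ^ 2 := by
  obtain ⟨n, hn⟩ := exists_exp x hx
  obtain ⟨m, hm⟩ := exists_exp y hy
  rw [ac, ac, hw x n hn, hw y m hm, ← zpow_natCast, ← _root_.zpow_mul] at h
  have h1 : n = m * 2 := by
    have := zpow_right_injective₀ hc.c0 hc.c1.ne h
    simpa using this
  rw [hn, hm, ← WithZero.exp_nsmul]
  congr 1
  simp only [nsmul_eq_mul, Nat.cast_ofNat]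
  omega

end wv

section ov

variable {k K L O : Type} [Field k] [Field K] [Algebra k[X] K] [IsFractionRing k[X] K]
  [Field L] [Algebra K L] [Algebra k[X] L] [IsScalarTower k[X] K L] [CommRing O]
  [IsDedekindDomain O] [Algebra O L] [IsFractionRing O L] [Algebra k[X] O]
  [IsScalarTower k[X] O L]

/-- The map from polynomials to the completion. -/
noncomputable def emb (L : Type) [Field L] [Algebra k[X] L] [Algebra O L] [IsFractionRing O L]
    (𝔓 : HeightOneSpectrum O) : k[X] →+* 𝔓.adicCompletion L :=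
  (algebraMap L (𝔓.adicCompletion L)).comp (algebraMap k[X] L)

theorem emb_comp {v : HeightOneSpectrum k[X]} {𝔓 : HeightOneSpectrum O}
    (j : v.adicCompletion K →+* 𝔓.adicCompletion L)
    (hj : ∀ x : K, j (algebraMap K (v.adicCompletion K) x) =
      algebraMap L (𝔓.adicCompletion L) (algebraMap K L x)) :
    j.comp ((algebraMap K (v.adicCompletion K)).comp (algebraMap k[X] K)) = emb L 𝔓 := by
  ext x
  · simp only [RingHom.comp_apply, emb]
    rw [hj, ← IsScalarTower.algebraMap_apply k[X] K L]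
  · simp only [RingHom.comp_apply, emb]
    rw [hj, ← IsScalarTower.algebraMap_apply k[X] K L]

theorem vemb (𝔓 : HeightOneSpectrum O) (a : k[X]) :
    Valued.v (Γ₀ := WithZero (Multiplicative ℤ)) (emb L 𝔓 a) =
      𝔓.valuation L (algebraMap k[X] L a) := vx 𝔓 _

theorem eval_emb (𝔓 : HeightOneSpectrum O) (p : k[X][X]) (x : L) :
    (p.map (emb L 𝔓)).eval (algebraMap L (𝔓.adicCompletion L) x) =
      algebraMap L (𝔓.adicCompletion L) (eval₂ (algebraMap k[X] L) x p) := by
  rw [eval_map, emb, ← hom_eval₂]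

/-- The local condition, evaluated. -/
theorem locIm_eval {v : HeightOneSpectrum k[X]} {𝔓 : HeightOneSpectrum O}
    (j : v.adicCompletion K →+* 𝔓.adicCompletion L)
    (hj : ∀ x : K, j (algebraMap K (v.adicCompletion K) x) =
      algebraMap L (𝔓.adicCompletion L) (algebraMap K L x))
    {F : k[X][X]} {Θ : L} (hΘ : eval₂ (algebraMap k[X] L) Θ F = 0) {h : K[X]} (hl : LocIm v F h) :
    ∃ (l : List ((v.adicCompletion K)[X] × (v.adicCompletion K)[X])) (s : 𝔓.adicCompletion L),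
      (∀ p ∈ l, p.1.Monic ∧ IsCoprime (p.1.map j) (F.map (emb L 𝔓)) ∧
        p.1.map j ∣ (p.2.map j) ^ 2 - F.map (emb L 𝔓)) ∧
      algebraMap L (𝔓.adicCompletion L) (aeval Θ h) * (l.map fun p =>
        (-1) ^ p.1.natDegree * (p.1.map j).eval (algebraMap L (𝔓.adicCompletion L) Θ)).prod =
          s ^ 2 := by
  obtain ⟨l, s, h1, h2⟩ := hl
  have hF : (F.map ((algebraMap K (v.adicCompletion K)).comp (algebraMap k[X] K))).map j =
      F.map (emb L 𝔓) := by
    rw [Polynomial.map_map, emb_comp j hj]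
  refine ⟨l, eval₂ j (algebraMap L (𝔓.adicCompletion L) Θ) s, fun p hp => ?_, ?_⟩
  · obtain ⟨h3, h4, h5⟩ := h1 p hp
    refine ⟨h3, ?_, ?_⟩
    · have := h4.map (mapRingHom j)
      rw [coe_mapRingHom, hF] at this
      exact this
    · have := _root_.map_dvd (mapRingHom j) h5
      rw [map_sub, map_pow, coe_mapRingHom, hF] at this
      exact this
  · obtain ⟨q, hq⟩ := h2
    have h3 := congrArg (eval₂ j (algebraMap L (𝔓.adicCompletion L) Θ)) hq
    have h4 : eval₂ j (algebraMap L (𝔓.adicCompletion L) Θ)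
        (F.map ((algebraMap K (v.adicCompletion K)).comp (algebraMap k[X] K))) = 0 := by
      rw [← eval_map, hF, eval_emb, hΘ, map_zero]
    rw [eval₂_sub, eval₂_mul, eval₂_pow, eval₂_mul, h4, zero_mul, sub_eq_zero,
      Pool.Agent.N704.PP.eval_h j hj] at h3
    rw [← h3, ← coe_eval₂RingHom, map_list_prod, List.map_map]
    congr 3
    funext p
    simp only [Function.comp_apply, map_mul, map_pow, map_neg, map_one, coe_eval₂RingHom, eval_map]
    rw [eval₂_mul, eval₂_pow, eval₂_neg, eval₂_one]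

theorem val_two (h2 : (2 : k) ≠ 0) (𝔓 : HeightOneSpectrum O) : 𝔓.valuation L 2 = 1 := by
  have e : (2 : L) = algebraMap k[X] L (C 2) := by
    rw [map_ofNat C, map_ofNat]
  have e' : algebraMap k[X] L (C 2) * algebraMap k[X] L (C 2⁻¹) = 1 := by
    rw [← map_mul, ← C_mul, mul_inv_cancel₀ h2, C_1, map_one]
  have h3 := congrArg (𝔓.valuation L) e'
  rw [map_mul, map_one] at h3
  rw [e]
  refine le_antisymm (valO_le_one 𝔓 _) ?_
  calc (1 : WithZero (Multiplicative ℤ)) =
      𝔓.valuation L (algebraMap k[X] L (C 2)) * 𝔓.valuation L (algebraMap k[X] L (C 2⁻¹)) := h3.symm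
    _ ≤ 𝔓.valuation L (algebraMap k[X] L (C 2)) * 1 := mul_le_mul' le_rfl (valO_le_one 𝔓 _)
    _ = _ := mul_one _

/-- The derivative of `f.scaleRoots D`. -/
theorem der_scale {R : Type} [CommRing R] [Algebra k[X] R] (f : k[X][X]) (D : k[X]) (θ : R) :
    eval₂ (algebraMap k[X] R) (algebraMap k[X] R D * θ) (derivative (f.scaleRoots D)) *
      algebraMap k[X] R D = algebraMap k[X] R D ^ f.natDegree *
        eval₂ (algebraMap k[X] R) θ (derivative f) := by
  have h1 : (f.scaleRoots D).comp (C D * X) = C (D ^ f.natDegree) * f := by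
    ext i
    rw [comp_C_mul_X_coeff, coeff_scaleRoots, coeff_C_mul, mul_assoc, ← pow_add]
    by_cases hi : i ≤ f.natDegree
    · rw [Nat.sub_add_cancel hi, mul_comm]
    · rw [coeff_eq_zero_of_natDegree_lt (not_le.1 hi), zero_mul, mul_zero]
  have h2 := congrArg derivative h1
  rw [derivative_comp, derivative_C_mul, derivative_C_mul, derivative_X, mul_one] at h2
  have h3 := congrArg (eval₂ (algebraMap k[X] R) θ) h2
  rw [eval₂_mul, eval₂_mul, eval₂_C, eval₂_C, eval₂_comp, eval₂_mul, eval₂_C, eval₂_X,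
    map_pow] at h3
  rw [← h3, mul_comm]

theorem scale_root {R : Type} [CommRing R] [Algebra k[X] R] {f : k[X][X]} {θ : R} (D : k[X])
    (h : eval₂ (algebraMap k[X] R) θ f = 0) :
    eval₂ (algebraMap k[X] R) (algebraMap k[X] R D * θ) (f.scaleRoots D) = 0 :=
  scaleRoots_eval₂_eq_zero _ h

/-- Even valuations at primes with good reduction. -/
theorem ev_good [IsIntegralClosure O k[X] L] {g : ℕ} (hE1 : S_E1) (hE : S_EXT) (hC : S_CPL)
    {f : k[X][X]} {θ : L} (h2 : (2 : k) ≠ 0) (hG : IsGen g K f θ) {P : k[X]}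
    {v : HeightOneSpectrum k[X]} (hP : Irreducible P) (hv : v.asIdeal = Ideal.span {P}) {D : k[X]}
    {h : K[X]} (hD : ¬ P ∣ D) (hne : aeval (algebraMap k[X] L D * θ) h ≠ 0)
    (hl : LocIm v (f.scaleRoots D) h) {𝔓 : HeightOneSpectrum O} (hO : Ov P 𝔓)
    (hd : 𝔓.valuation L (eval₂ (algebraMap k[X] L) θ (derivative f)) = 1) :
    Ev 𝔓 (aeval (algebraMap k[X] L D * θ) h) := by
  obtain ⟨j, hj1, hj2, hj3⟩ := hC k K L O P v 𝔓 hP hv hO
  obtain ⟨w, c, hc, hw⟩ := hE O L 𝔓 (val_two (k := k) h2 𝔓)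
  change WV w c at hw
  set Θ : L := algebraMap k[X] L D * θ with hΘ
  have hΘ0 : eval₂ (algebraMap k[X] L) Θ (f.scaleRoots D) = 0 := scale_root D hG.root
  obtain ⟨l, s, hl1, hl2⟩ := locIm_eval j hj1 hΘ0 hl
  set α := algebraMap L (𝔓.adicCompletion L) (aeval Θ h) with hα
  have hα0 : α ≠ 0 := by rw [hα, Ne, map_eq_zero]; exact hne
  set Θ' := algebraMap L (𝔓.adicCompletion L) Θ with hΘ'
  have hvD : 𝔓.valuation L (algebraMap k[X] L D) = 1 := valO_eq_one hP hO hD
  have hFm : ((f.scaleRoots D).map (emb L 𝔓)).Monic :=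
    ((monic_scaleRoots_iff D).2 hG.mon).map _
  have hFd : ((f.scaleRoots D).map (emb L 𝔓)).natDegree = 2 * g + 1 := by
    rw [Monic.natDegree_map ((monic_scaleRoots_iff D).2 hG.mon), natDegree_scaleRoots, hG.deg]
  have hder : w (ac ((derivative ((f.scaleRoots D).map (emb L 𝔓))).eval Θ')) = 1 := by
    rw [wv_eq hc hw, derivative_map, hΘ', eval_emb, vx]
    have h3 := congrArg (𝔓.valuation L) (der_scale f D θ)
    rw [map_mul, map_mul, map_pow, hvD, one_pow, hd, mul_one, mul_one] at h3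
    exact h3
  have key : ∀ p ∈ l, ∃ y : 𝔓.adicCompletion L, y ≠ 0 ∧
      w (ac ((p.1.map j).eval Θ')) = w (ac y) ^ 2 := by
    intro p hp
    obtain ⟨h3, h4, h5⟩ := hl1 p hp
    refine hE1 _ w c hc ((f.scaleRoots D).map (emb L 𝔓)) (p.1.map j) (p.2.map j) Θ' hFm ?_ ?_ ?_ ?_
      hder (h3.map _) h4 h5
    · rw [hFd]; exact ⟨g, rfl⟩
    · intro i
      rw [wv_le hc hw, coeff_map, vemb]
      exact valO_le_one 𝔓 _
    · rw [wv_le hc hw, hΘ', vx, hΘ, map_mul, hvD, one_mul]
      exact theta_le hG 𝔓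
    · rw [hΘ', eval_emb, hΘ0, map_zero]
  have key2 : ∀ l' : List ((v.adicCompletion K)[X] × (v.adicCompletion K)[X]), (∀ p ∈ l',
      ∃ y : 𝔓.adicCompletion L, y ≠ 0 ∧ w (ac ((p.1.map j).eval Θ')) = w (ac y) ^ 2) →
      ∃ y : 𝔓.adicCompletion L, y ≠ 0 ∧
        w (ac (l'.map fun p => (-1) ^ p.1.natDegree * (p.1.map j).eval Θ').prod) =
          w (ac y) ^ 2 := by
    intro l'
    induction l' with
    | nil =>
      intro _
      exact ⟨1, one_ne_zero, by simp⟩
    | cons p l' ih =>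
      intro hp
      obtain ⟨y, hy0, hy⟩ := ih fun q hq => hp q (List.mem_cons_of_mem _ hq)
      obtain ⟨z, hz0, hz⟩ := hp p List.mem_cons_self
      refine ⟨z * y, mul_ne_zero hz0 hy0, ?_⟩
      rw [List.map_cons, List.prod_cons]
      simp only [ac] at hy hz ⊢
      rw [map_mul, map_mul, hy, map_mul, map_mul, hz, map_mul, map_mul, map_pow, map_pow, map_neg,
        map_one, Valuation.map_neg, map_one, one_pow, one_mul, mul_pow]
  obtain ⟨y, hy0, hy⟩ := key2 l key
  have h3 := congrArg (fun x => w (ac x)) hl2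
  have hprod0 : (l.map fun p => (-1) ^ p.1.natDegree * (p.1.map j).eval Θ').prod ≠ 0 := by
    intro h0
    rw [h0] at hy
    simp only [ac, map_zero] at hy
    have h4 : w (algebraMap _ _ y) ≠ 0 := by
      rw [Valuation.ne_zero_iff, Ne, map_eq_zero]
      exact hy0
    exact pow_ne_zero 2 h4 hy.symm
  have hs0 : s ≠ 0 := by
    intro h0
    rw [h0, zero_pow two_ne_zero] at hl2
    rcases mul_eq_zero.1 hl2 with h5 | h5
    · exact hα0 h5
    · exact hprod0 h5
  refine ev_of 𝔓 _ (s / y) ?_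
  refine wv_sq (x := α) hc hw hα0 (div_ne_zero hs0 hy0) ?_
  have h4 : w (ac (α * (l.map fun p => (-1) ^ p.1.natDegree * (p.1.map j).eval Θ').prod)) =
      w (ac (s ^ 2)) := h3
  have hwy : w (ac y) ≠ 0 := by
    rw [Valuation.ne_zero_iff, ac, Ne, map_eq_zero]
    exact hy0
  simp only [ac] at h4 hy hwy ⊢
  rw [map_mul, map_mul, hy, map_pow, map_pow] at h4
  rw [map_div₀, map_div₀, div_pow, ← h4, mul_div_assoc, div_self (pow_ne_zero 2 hwy), mul_one]

end ov

theorem loc1 (h0 : S_INT) (h1 : S_PAR) (h2 : S_E1) (h3 : S_EXT) (h4 : S_CPL) : S_LOC1 := by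
  intro g k K L O _ _ _ _ _ _ _ _ _ _ _ _ _ _ _ _ f θ h2k hG hsq P v hP hv D h hD hne hN hl 𝔓 h𝔓
  obtain ⟨c, hc⟩ := deg_one (O := O) h0 hG hsq hP
  have hle : ∀ 𝔮 : HeightOneSpectrum O,
      𝔮.valuation L (eval₂ (algebraMap k[X] L) θ (derivative f)) ≤ 1 := by
    intro 𝔮
    refine val_int (k := k) 𝔮 ?_
    rw [eval₂_eq_sum_range]
    exact IsIntegral.sum _ fun i _ => isIntegral_algebraMap.mul
      ((Pool.Agent.N769.PJ.theta_int hG).pow _)
  by_cases hd : 𝔓.valuation L (eval₂ (algebraMap k[X] L) θ (derivative f)) = 1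
  · exact ev_good h2 h3 h4 h2k hG hP hv hD hne hl h𝔓 hd
  · have hd' := lt_of_le_of_ne (hle 𝔓) hd
    have hcc := hc 𝔓 h𝔓 hd'
    refine h1 g k K L O f θ hG hsq P hP 𝔓 c h𝔓 hcc _ hne hN ?_
    intro 𝔮 hq hne'
    refine ev_good h2 h3 h4 h2k hG hP hv hD hne hl hq ?_
    by_contra h5
    exact hne' (uniq h0 hG hsq hP hq h𝔓 (hc 𝔮 hq (lt_of_le_of_ne (hle 𝔮) h5)) hcc)

end Pool.Agent.N704.PJ
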