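import Pool.Agent.N704.PJ.Split
import Pool.Agent.N704.PP.Loc2

/-!
# Local analysis at the primes dividing `D`

Project PJ (helper352), part PJ-LOC2 (helper704).
-/

set_option autoImplicit false
set_option linter.all false

open Polynomial IsDedekindDomain WithZero Matrix
open Pool.Agent.N874.PP (Ov Ev Sq1 U0)
open Pool.Agent.N352.PJ
open scoped Classical NNReal

namespace Pool.Agent.N704.PJ

open Pool.Agent.N704.PP (vx sq1_of val_int valO_lt_one valO_le_one valO_eq_one u0_of_sq1 u0_of_sq1'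
  exists_inv_mod resid j_big)

theorem sq_list {E A : Type} [Field E] {t : E} (ht : t ≠ 0) (u : A → E) (l : List A)
    (h : ∀ p ∈ l, IsSquare (u p) ∨ IsSquare (u p * t)) :
    IsSquare (l.map u).prod ∨ IsSquare ((l.map u).prod * t) := by
  induction l with
  | nil => left; exact ⟨1, by simp⟩
  | cons p l ih =>
    rw [List.map_cons, List.prod_cons]
    rcases h p List.mem_cons_self with ⟨a, ha⟩ | ⟨a, ha⟩ <;>
    rcases ih fun q hq => h q (List.mem_cons_of_mem _ hq) with ⟨b, hb⟩ | ⟨b, hb⟩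
    · left; exact ⟨a * b, by rw [ha, hb]; ring⟩
    · right; exact ⟨a * b, by rw [ha, mul_assoc, hb]; ring⟩
    · right; exact ⟨a * b, by rw [mul_right_comm, ha, hb]; ring⟩
    · left
      refine ⟨a * b / t, ?_⟩
      have : u p * (l.map u).prod * (t * t) = a * a * (b * b) := by rw [← ha, ← hb]; ring
      field_simp
      linear_combination this

section ov

variable {k K L O : Type} [Field k] [Field K] [Algebra k[X] K] [IsFractionRing k[X] K]
  [Field L] [Algebra K L] [Algebra k[X] L] [IsScalarTower k[X] K L] [CommRing O]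
  [IsDedekindDomain O] [Algebra O L] [IsFractionRing O L] [Algebra k[X] O]
  [IsScalarTower k[X] O L]

/-- Polynomials over the completion of `K` are congruent to polynomials over `k[X]`. -/
theorem approx {v : HeightOneSpectrum k[X]} {𝔓 : HeightOneSpectrum O}
    (j : v.adicCompletion K →+* 𝔓.adicCompletion L)
    (hj1 : ∀ x : K, j (algebraMap K (v.adicCompletion K) x) =
      algebraMap L (𝔓.adicCompletion L) (algebraMap K L x))
    (hj3 : ∀ y, Valued.v (Γ₀ := WithZero (Multiplicative ℤ)) y < 1 →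
      Valued.v (Γ₀ := WithZero (Multiplicative ℤ)) (j y) < 1)
    (p : (v.adicCompletion K)[X])
    (hp : ∀ i, Valued.v (Γ₀ := WithZero (Multiplicative ℤ)) (j (p.coeff i)) ≤ 1) :
    ∃ p₀ : k[X][X], ∀ z : 𝔓.adicCompletion L, Valued.v (Γ₀ := WithZero (Multiplicative ℤ)) z ≤ 1 →
      (Valued.v (Γ₀ := WithZero (Multiplicative ℤ)) ((p.map j).eval z) < 1 ↔
        Valued.v (Γ₀ := WithZero (Multiplicative ℤ)) ((p₀.map (emb L 𝔓)).eval z) < 1) := by
  have hp' : ∀ i, Valued.v (Γ₀ := WithZero (Multiplicative ℤ)) (p.coeff i) ≤ 1 := by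
    intro i
    by_contra h
    exact absurd (j_big j hj3 (not_le.1 h)) (not_lt.2 (hp i))
  choose q hq using fun i => resid (p.coeff i) (hp' i)
  set p₀ : k[X][X] := ∑ i ∈ Finset.range (p.natDegree + 1), monomial i (q i) with hp0
  have hc : ∀ i, Valued.v (Γ₀ := WithZero (Multiplicative ℤ))
      ((p.map j - p₀.map (emb L 𝔓)).coeff i) < 1 := by
    intro i
    rw [coeff_sub, coeff_map, coeff_map]
    by_cases hi : i < p.natDegree + 1
    · have e : p₀.coeff i = q i := by
        rw [hp0, finset_sum_coeff]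
        simp only [coeff_monomial]
        rw [Finset.sum_ite_eq' (Finset.range (p.natDegree + 1)) i q, if_pos (Finset.mem_range.2 hi)]
      rw [e, ← emb_comp j hj1]
      have e2 : j (p.coeff i) - (j.comp ((algebraMap K (v.adicCompletion K)).comp
          (algebraMap k[X] K))) (q i) =
          j (p.coeff i - algebraMap K (v.adicCompletion K) (algebraMap k[X] K (q i))) := by
        rw [map_sub]; rfl
      rw [e2]
      exact hj3 _ (hq i)
    · have e : p₀.coeff i = 0 := by
        rw [hp0, finset_sum_coeff]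
        refine Finset.sum_eq_zero fun n hn => ?_
        rw [coeff_monomial, if_neg]
        intro h
        rw [Finset.mem_range] at hn
        omega
      rw [e, coeff_eq_zero_of_natDegree_lt (by omega : p.natDegree < i), map_zero, map_zero,
        sub_zero, map_zero]
      exact zero_lt_one
  refine ⟨p₀, fun z hz => ?_⟩
  have h1 := eval_lt (Valued.v (R := 𝔓.adicCompletion L)) _ hc hz
  rw [eval_sub] at h1
  constructor
  · intro h
    have e1 : (p₀.map (emb L 𝔓)).eval z = (p.map j).eval z -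
      ((p.map j).eval z - (p₀.map (emb L 𝔓)).eval z) := by ring
    rw [e1]
    exact lt_of_le_of_lt (Valuation.map_sub _ _ _) (max_lt h h1)
  · intro h
    have e1 : (p.map j).eval z = (p₀.map (emb L 𝔓)).eval z +
      ((p.map j).eval z - (p₀.map (emb L 𝔓)).eval z) := by ring
    rw [e1]
    exact lt_of_le_of_lt (Valuation.map_add _ _ _) (max_lt h h1)

end ov

theorem loc2 (h0 : S_INT) (h1 : S_EXQ) (h2 : S_CSQ) (h3 : S_E2) (h4 : S_EQ) (h5 : S_EXT)
    (h6 : S_CPL) : S_LOC2 := by
  intro g k K L O _ _ _ _ _ _ _ _ _ _ _ _ _ _ _ _ f θ S h hg h2k hG hsq hS Q hQ hC v hv D' h' hD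
    hne hl 𝔮 hO hθ
  obtain ⟨hsqc, hcard⟩ := h2 g k K L O f θ S h hg hG hsq hS Q hQ hC 𝔮 hO hθ
  have hfin : Finite (O ⧸ 𝔮.asIdeal) :=
    Nat.finite_of_card_ne_zero (by rw [hcard]; exact pow_ne_zero _ Nat.card_pos.ne')
  obtain ⟨-, hQi, -⟩ := hS Q hQ
  have hvQ : 𝔮.valuation L (algebraMap k[X] L Q) = exp (-1 : ℤ) := by
    obtain ⟨𝔓₁, 𝔮', -, -, hθ1, -, -, hvq', huq⟩ := h1 g k K L O f θ S h hg hG hsq hS Q hQ hC
    rcases huq 𝔮 hO with h7 | h7
    · rw [h7] at hθ
      rw [hθ] at hθ1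
      exact absurd hθ1 (lt_irrefl _)
    · rw [h7]; exact hvq'
  have hvD' : 𝔮.valuation L (algebraMap k[X] L D') = 1 := valO_eq_one hQi hO hD
  obtain ⟨z, hz1, hz2, hz3, hz4, hz5⟩ := split hg hG hS hQ hC hO hθ hfin
  obtain ⟨j, hj1, hj2, hj3⟩ := h6 k K L O Q v 𝔮 hQi hv hO
  obtain ⟨w, c, hc, hw⟩ := h5 O L 𝔮 (val_two (k := k) h2k 𝔮)
  change WV w c at hw
  set Θ : L := algebraMap k[X] L (Q * D') * θ with hΘ
  have hΘ0 : eval₂ (algebraMap k[X] L) Θ (f.scaleRoots (Q * D')) = 0 := scale_root _ hG.root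
  obtain ⟨l, s, hl1, hl2⟩ := locIm_eval j hj1 hΘ0 hl
  set α' := aeval Θ h' with hα'
  set α := algebraMap L (𝔮.adicCompletion L) α' with hα
  have hα0 : α ≠ 0 := by rw [hα, Ne, map_eq_zero]; exact hne
  set D := emb L 𝔮 (Q * D') with hDd
  set t := algebraMap L (𝔮.adicCompletion L) θ with ht
  have vt : Valued.v (Γ₀ := WithZero (Multiplicative ℤ)) t = 1 := by rw [ht, vx, hθ]
  have ht0 : t ≠ 0 := by
    intro h
    rw [h, map_zero] at vt
    exact zero_ne_one vt
  have vD : Valued.v (Γ₀ := WithZero (Multiplicative ℤ)) D = exp (-1 : ℤ) := by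
    rw [hDd, vemb, map_mul, map_mul, hvQ, hvD', mul_one]
  have hD0 : D ≠ 0 := by
    intro h
    rw [h, map_zero] at vD
    exact exp_ne_zero vD.symm
  have hΘE : algebraMap L (𝔮.adicCompletion L) Θ = D * t := by
    rw [hΘ, map_mul]; rfl
  rw [hΘE] at hl2
  have hzinj : Function.Injective z := by
    intro i i' hii
    by_contra hne'
    have := hz4 i i' hne'
    rw [hii, sub_self, map_zero] at this
    exact zero_ne_one this
  have hfm : (f.map (emb L 𝔮)).Monic := hG.mon.map _
  have hfd : (f.map (emb L 𝔮)).natDegree = 2 * g + 1 := by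
    rw [hG.mon.natDegree_map, hG.deg]
  have hfp := eq_prod hfm hfd hzinj hz1
  have hFm : ((f.scaleRoots (Q * D')).map (emb L 𝔮)).Monic :=
    ((monic_scaleRoots_iff _).2 hG.mon).map _
  have hFd : ((f.scaleRoots (Q * D')).map (emb L 𝔮)).natDegree = 2 * g + 1 := by
    rw [Monic.natDegree_map ((monic_scaleRoots_iff _).2 hG.mon), natDegree_scaleRoots, hG.deg]
  have hFp : (f.scaleRoots (Q * D')).map (emb L 𝔮) = prd D z := by
    refine eq_prod hFm hFd (r := fun i => D * z i) ?_ ?_
    · intro i i' hii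
      exact hzinj (mul_left_cancel₀ hD0 hii)
    · intro i
      rw [eval_map]
      refine scaleRoots_eval₂_eq_zero _ ?_
      rw [← eval_map]
      exact hz1 i
  obtain ⟨i₁, hi₁⟩ : ∃ i, t = z i := by
    have h7 : (f.map (emb L 𝔮)).eval t = 0 := by
      rw [ht, eval_emb, hG.root, map_zero]
    rw [hfp, eval_prod, Finset.prod_eq_zero_iff] at h7
    obtain ⟨i, -, hi⟩ := h7
    rw [eval_sub, eval_X, eval_C, sub_eq_zero] at hi
    exact ⟨i, hi⟩
  have hi₁0 : i₁ ≠ 0 := by
    intro h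
    rw [← h, ← hi₁, vt] at hz3
    exact lt_irrefl _ hz3
  have hjD : j ((algebraMap K (v.adicCompletion K)) (algebraMap k[X] K (Q * D'))) = D := by
    rw [hDd, ← emb_comp j hj1]; rfl
  have hQD0 : (algebraMap K (v.adicCompletion K)) (algebraMap k[X] K (Q * D')) ≠ 0 := by
    intro h
    rw [h, map_zero] at hjD
    exact hD0 hjD.symm
  have hwD : w (ac D) = c := by
    rw [ac, hw D 1 vD, zpow_one]
  -- the factors
  have key : ∀ p ∈ l, IsSquare ((-1) ^ p.1.natDegree * (p.1.map j).eval (D * t)) ∨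
      IsSquare ((-1) ^ p.1.natDegree * (p.1.map j).eval (D * t) * (-(D * t))) := by
    intro p hp
    obtain ⟨h7, h8, h9⟩ := hl1 p hp
    rw [hFp] at h8 h9
    have h10 := h3 (𝔮.adicCompletion L) w c hc g D z (p.1.map j) (p.2.map j) hg hwD
      (fun i => (wv_le hc hw _).2 (hz2 i)) ((wv_lt hc hw _).2 hz3)
      (fun i i' hii => (wv_eq hc hw _).2 (hz4 i i' hii)) (h7.map j) h8 h9 ?_ i₁ hi₁0
    · rw [natDegree_map, ← hi₁] at h10
      exact h10
    · intro i i' hi hi'
      rw [← hjD]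
      refine h4 _ _ j w _ (z i) (z i') p.1 hQD0 h7.ne_zero ((wv_le hc hw _).2 (hz2 i))
        ((wv_le hc hw _).2 (hz2 i')) ?_
      intro q hq
      obtain ⟨p₀, hp₀⟩ := approx j hj1 hj3 q fun n => (wv_le hc hw _).1 (hq n)
      rw [wv_lt hc hw, wv_lt hc hw, hp₀ _ (hz2 i), hp₀ _ (hz2 i'), hz5 i hi, hz5 i' hi']
  have hDt0 : -(D * t) ≠ 0 := neg_ne_zero.2 (mul_ne_zero hD0 ht0)
  have hprod := sq_list hDt0 (fun p : (v.adicCompletion K)[X] × (v.adicCompletion K)[X] =>
    (-1) ^ p.1.natDegree * (p.1.map j).eval (D * t)) l key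
  have hprod0 : (l.map fun p => (-1) ^ p.1.natDegree * (p.1.map j).eval (D * t)).prod ≠ 0 := by
    intro h7
    rw [List.prod_eq_zero_iff, List.mem_map] at h7
    obtain ⟨p, hp, hp0⟩ := h7
    have h8 : (p.1.map j).eval (D * t) = 0 := by
      rcases mul_eq_zero.1 hp0 with h9 | h9
      · exact absurd h9 (pow_ne_zero _ (neg_ne_zero.2 one_ne_zero))
      · exact h9
    obtain ⟨-, ⟨a, b, hab⟩, -⟩ := hl1 p hp
    have h9 := congrArg (eval (D * t)) hab
    have h10 : ((f.scaleRoots (Q * D')).map (emb L 𝔮)).eval (D * t) = 0 := by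
      rw [← hΘE, eval_emb, hΘ0, map_zero]
    rw [eval_add, eval_mul, eval_mul, h8, h10, mul_zero, mul_zero, add_zero, eval_one] at h9
    exact zero_ne_one h9
  set pr := (l.map fun p => (-1) ^ p.1.natDegree * (p.1.map j).eval (D * t)).prod with hpr
  rcases hprod with ⟨r, hr⟩ | ⟨r, hr⟩
  · have hr' : pr = r * r := hr
    have hr0 : r ≠ 0 := by
      rintro rfl
      rw [mul_zero] at hr'
      exact hprod0 hr'
    refine u0_of_sq1 (sq1_of 𝔮 α' (s / r) ?_)
    have e : algebraMap L (𝔮.adicCompletion L) α' - (s / r) ^ 2 = 0 := by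
      rw [← hα, div_pow, ← hl2, hr']
      field_simp
      ring
    rw [e, map_zero]
    exact zero_lt_iff.2 ((Valuation.ne_zero_iff _).2 hα0)
  · have hr' : pr * (-(D * t)) = r * r := hr
    have hr0 : r ≠ 0 := by
      rintro rfl
      rw [mul_zero] at hr'
      exact mul_ne_zero hprod0 hDt0 hr'
    refine u0_of_sq1' hne hvQ hθ ?_
    -- `α (Q θ) (-D')` is a square
    have hnD : ¬ Q ∣ -D' := by rwa [dvd_neg]
    obtain ⟨σ, hσ⟩ := hsqc (-D') hnD
    have v2 : 𝔮.valuation L (algebraMap k[X] L (-D')) = 1 := valO_eq_one hQi hO hnD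
    have vσ : 𝔮.valuation L (σ ^ 2) = 1 := by
      have := Valuation.map_sub_eq_of_lt_left (𝔮.valuation L) (x := algebraMap k[X] L (-D'))
        (y := algebraMap k[X] L (-D') - σ ^ 2) hσ
      rwa [sub_sub_cancel, v2] at this
    rw [v2] at hσ
    have hσ0 : σ ≠ 0 := by
      rintro rfl
      rw [zero_pow two_ne_zero, map_zero] at vσ
      exact zero_ne_one vσ
    set σ' := algebraMap L (𝔮.adicCompletion L) σ with hσ'
    have hσ'0 : σ' ≠ 0 := by rw [hσ', Ne, map_eq_zero]; exact hσ0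
    set β := α' * (algebraMap k[X] L Q * θ) with hβ
    have hβ0 : algebraMap L (𝔮.adicCompletion L) β ≠ 0 := by
      rw [Ne, map_eq_zero, hβ]
      refine mul_ne_zero hne (mul_ne_zero ?_ ?_)
      · intro h
        rw [h, map_zero] at hvQ
        exact exp_ne_zero hvQ.symm
      · intro h
        rw [h, map_zero] at hθ
        exact zero_ne_one hθ
    have e1 : algebraMap L (𝔮.adicCompletion L) (β * algebraMap k[X] L (-D')) =
        α * (-(D * t)) := by
      rw [hβ, hα, map_mul, map_mul, map_mul, hDd, ht]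
      simp only [emb, RingHom.comp_apply, map_neg, map_mul]
      ring
    have e2 : algebraMap L (𝔮.adicCompletion L) (β * algebraMap k[X] L (-D')) =
        (s * (-(D * t)) / r) ^ 2 := by
      rw [e1, div_pow, eq_div_iff (pow_ne_zero 2 hr0), pow_two r, ← hr', mul_pow, ← hl2]
      ring
    refine sq1_of 𝔮 β ((s * (-(D * t)) / r) / σ') ?_
    have e3 : algebraMap L (𝔮.adicCompletion L) β - ((s * (-(D * t)) / r) / σ') ^ 2 =
        -(algebraMap L (𝔮.adicCompletion L) β *
          algebraMap L (𝔮.adicCompletion L) (algebraMap k[X] L (-D') - σ ^ 2) / σ' ^ 2) := by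
      have e2' : algebraMap L (𝔮.adicCompletion L) β *
          algebraMap L (𝔮.adicCompletion L) (algebraMap k[X] L (-D')) =
          (s * (-(D * t)) / r) ^ 2 := by rw [← map_mul]; exact e2
      rw [div_pow (s * (-(D * t)) / r), ← e2', map_sub, map_pow, ← hσ']
      field_simp
      ring
    rw [e3, Valuation.map_neg, map_div₀, map_mul, map_pow, hσ', ← map_pow, ← map_pow, vx 𝔮 (σ ^ 2),
      vσ, div_one, vx 𝔮 (_ - _)]
    calc _ < Valued.v (algebraMap L (𝔮.adicCompletion L) β) * 1 :=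
          mul_lt_mul_of_pos_left hσ (zero_lt_iff.2 ((Valuation.ne_zero_iff _).2 hβ0))
      _ = _ := mul_one _

end Pool.Agent.N704.PJ
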