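import Pool.Agent.N704.PJ.Loc1
import Pool.Agent.N704.PJ.Hensel

/-!
# The splitting of `f` over the completion at the big prime over `Q`

Project PJ (helper352), part of PJ-LOC2 (helper704).
-/

set_option autoImplicit false
set_option linter.all false

open Polynomial IsDedekindDomain WithZero Matrix
open Pool.Agent.N874.PP (Ov Ev Sq1 U0)
open Pool.Agent.N352.PJ
open scoped Classical NNReal

namespace Pool.Agent.N704.PJ

open Pool.Agent.N704.PP (vx val_int valO_lt_one valO_le_one valO_eq_one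
  exists_inv_mod)

section ff

variable {κ κ' : Type} [Field κ] [Field κ'] [Finite κ'] [Algebra κ κ']

theorem cop_X {H : κ[X]} (hi : Irreducible H) (hn : 2 ≤ H.natDegree) : IsCoprime (X : κ[X]) H := by
  rw [irreducible_X.coprime_iff_not_dvd]
  intro h
  have h1 : Associated (X : κ[X]) H := irreducible_X.associated_of_dvd hi h
  have h2 := natDegree_eq_of_degree_eq (degree_eq_degree_of_associated h1)
  rw [natDegree_X] at h2
  omega

theorem roots_ff {H : κ[X]} (hH : H.Monic) (hi : Irreducible H) {n : ℕ} (hn : H.natDegree = n)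
    (hn2 : 2 ≤ n) {t : κ'} (ht : aeval t H = 0) :
    ∃ e : Fin (n + 1) → κ', Function.Injective e ∧ e 0 = 0 ∧ (∀ i, i ≠ 0 → aeval (e i) H = 0) := by
  have hm : H = minpoly κ t := minpoly.eq_of_irreducible_of_monic hi ht hH
  have hs : (H.map (algebraMap κ κ')).Splits := by
    rw [hm]; exact Normal.splits (inferInstance : Normal κ κ') t
  have hfin : Finite κ := Finite.of_injective _ (algebraMap κ κ').injective
  have hsep : H.Separable := PerfectField.separable_of_irreducible hi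
  have hcard : (H.aroots κ').toFinset.card = n := by
    rw [Multiset.toFinset_card_of_nodup (nodup_roots hsep.map), ← hn]
    rw [← hs.natDegree_eq_card_roots, natDegree_map]
  have hmem : ∀ x ∈ (H.aroots κ').toFinset, aeval x H = 0 := by
    intro x hx
    rw [Multiset.mem_toFinset, mem_aroots] at hx
    exact hx.2
  let φ := ((H.aroots κ').toFinset.equivFinOfCardEq hcard).symm
  refine ⟨Fin.cons 0 fun i => ((φ i : (H.aroots κ').toFinset) : κ'), ?_, rfl, ?_⟩
  · rw [Fin.cons_injective_iff]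
    refine ⟨?_, ?_⟩
    · rintro ⟨i, hi0⟩
      have h1 := hmem _ (φ i).2
      simp only at hi0
      rw [hi0] at h1
      obtain ⟨a, b, hab⟩ := cop_X hi (by omega : 2 ≤ H.natDegree)
      have h2 := congrArg (aeval (0 : κ')) hab
      rw [map_add, map_mul, map_mul, h1, aeval_X, mul_zero, mul_zero, add_zero, map_one] at h2
      exact zero_ne_one h2
    · intro i j hij
      exact φ.injective (Subtype.ext hij)
  · intro i
    refine Fin.cases ?_ (fun i => ?_) i
    · intro h; exact absurd rfl h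
    · intro _
      rw [Fin.cons_succ]
      exact hmem _ (φ i).2

end ff

/-- A monic polynomial with `n` different roots. -/
theorem eq_prod {E : Type} [Field E] {n : ℕ} {F : E[X]} (hF : F.Monic) (hd : F.natDegree = n)
    {r : Fin n → E} (hr : Function.Injective r) (h : ∀ i, F.eval (r i) = 0) :
    F = ∏ i, (X - C (r i)) := by
  have h1 : (∏ i, (X - C (r i))) ∣ F :=
    Finset.prod_dvd_of_coprime ((pairwise_coprime_X_sub_C hr).set_pairwise _)
      fun i _ => dvd_iff_isRoot.2 (h i)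
  have h2 : (∏ i, (X - C (r i))).Monic := monic_prod_of_monic _ _ fun i _ => monic_X_sub_C _
  have h3 : (∏ i, (X - C (r i))).natDegree = n := by
    rw [natDegree_prod_of_monic _ _ fun i _ => monic_X_sub_C _]
    simp
  exact (eq_of_monic_of_dvd_of_natDegree_le h2 hF h1 (by rw [h3, hd]))

section ov

variable {k K L O : Type} [Field k] [Field K] [Algebra k[X] K] [IsFractionRing k[X] K]
  [Field L] [Algebra K L] [Algebra k[X] L] [IsScalarTower k[X] K L] [CommRing O]
  [IsDedekindDomain O] [Algebra O L] [IsFractionRing O L] [Algebra k[X] O]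
  [IsScalarTower k[X] O L]

/-- The image in the completion. -/
noncomputable def em (L : Type) [Field L] [Algebra O L] [IsFractionRing O L]
    (𝔓 : HeightOneSpectrum O) : O →+* 𝔓.adicCompletion L :=
  (algebraMap L (𝔓.adicCompletion L)).comp (algebraMap O L)

theorem em_lt (𝔓 : HeightOneSpectrum O) (x : O) :
    Valued.v (Γ₀ := WithZero (Multiplicative ℤ)) (em L 𝔓 x) < 1 ↔ x ∈ 𝔓.asIdeal := by
  rw [em, RingHom.comp_apply, vx, HeightOneSpectrum.valuation_lt_one_iff_mem]

theorem em_le (𝔓 : HeightOneSpectrum O) (x : O) :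
    Valued.v (Γ₀ := WithZero (Multiplicative ℤ)) (em L 𝔓 x) ≤ 1 := by
  rw [em, RingHom.comp_apply, vx]
  exact 𝔓.valuation_le_one x

theorem em_eq (𝔓 : HeightOneSpectrum O) (x : O) :
    Valued.v (Γ₀ := WithZero (Multiplicative ℤ)) (em L 𝔓 x) = 1 ↔ x ∉ 𝔓.asIdeal := by
  rw [← em_lt (L := L), not_lt]
  constructor
  · intro h; rw [h]
  · intro h; exact le_antisymm (em_le 𝔓 x) h

theorem emb_eq (𝔓 : HeightOneSpectrum O) : emb L 𝔓 = (em L 𝔓).comp (algebraMap k[X] O) := by
  rw [emb, em, RingHom.comp_assoc, ← IsScalarTower.algebraMap_eq k[X] O L]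

theorem eval_em (𝔓 : HeightOneSpectrum O) (p : k[X][X]) (x : O) :
    (p.map (emb L 𝔓)).eval (em L 𝔓 x) = em L 𝔓 (eval₂ (algebraMap k[X] O) x p) := by
  rw [eval_map, emb_eq, ← hom_eval₂]

/-- The splitting of `f` over the completion. -/
theorem split [IsIntegralClosure O k[X] L] {g : ℕ} {f : k[X][X]} {θ : L} {S : Finset k[X]}
    {h : k[X] → k[X][X]} (hg : 1 ≤ g) (hG : IsGen g K f θ) (hS : GoodS g S h) {Q : k[X]}
    (hQ : Q ∈ S) (hC : Cg Q f (X * h Q)) {𝔮 : HeightOneSpectrum O} (hO : Ov Q 𝔮)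
    (hθ : 𝔮.valuation L θ = 1) (hfin : Finite (O ⧸ 𝔮.asIdeal)) :
    ∃ z : Fin (2 * g + 1) → 𝔮.adicCompletion L,
      (∀ i, (f.map (emb L 𝔮)).eval (z i) = 0) ∧
      (∀ i, Valued.v (Γ₀ := WithZero (Multiplicative ℤ)) (z i) ≤ 1) ∧
      Valued.v (Γ₀ := WithZero (Multiplicative ℤ)) (z 0) < 1 ∧
      (∀ i j, i ≠ j → Valued.v (Γ₀ := WithZero (Multiplicative ℤ)) (z i - z j) = 1) ∧
      ∀ i, i ≠ 0 → ∀ p : k[X][X],
        (Valued.v (Γ₀ := WithZero (Multiplicative ℤ)) ((p.map (emb L 𝔮)).eval (z i)) < 1 ↔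
          (h Q).map (Ideal.Quotient.mk (Ideal.span {Q})) ∣
            p.map (Ideal.Quotient.mk (Ideal.span {Q}))) := by
  obtain ⟨hQm, hQi, hhm, hhd, -, hhi⟩ := hS Q hQ
  haveI hmax : (Ideal.span {Q}).IsMaximal := PrincipalIdealRing.isMaximal_of_irreducible hQi
  letI f1 : Field (k[X] ⧸ Ideal.span {Q}) := Ideal.Quotient.field _
  letI f2 : Field (O ⧸ 𝔮.asIdeal) := Ideal.Quotient.field _
  have hle : Ideal.span {Q} ≤ 𝔮.asIdeal.comap (algebraMap k[X] O) := by
    rw [Ideal.span_singleton_le_iff_mem]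
    exact hO
  let ι : (k[X] ⧸ Ideal.span {Q}) →+* (O ⧸ 𝔮.asIdeal) :=
    Ideal.quotientMap 𝔮.asIdeal (algebraMap k[X] O) hle
  letI alg : Algebra (k[X] ⧸ Ideal.span {Q}) (O ⧸ 𝔮.asIdeal) := ι.toAlgebra
  set mQ := Ideal.Quotient.mk (Ideal.span {Q}) with hmQ
  set φ := Ideal.Quotient.mk 𝔮.asIdeal with hφ
  have hcomp : ι.comp mQ = φ.comp (algebraMap k[X] O) := by
    refine RingHom.ext fun x => ?_
    rfl
  set H := (h Q).map mQ with hH
  have hHm : H.Monic := hhm.map _
  have hHd : H.natDegree = 2 * g := by rw [hH, hhm.natDegree_map, hhd]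
  have hfH : f.map mQ = X * H := by
    have h1 : (X * H : (k[X] ⧸ Ideal.span {Q})[X]) = (X * h Q).map mQ := by
      rw [Polynomial.map_mul, map_X]
    rw [h1]
    ext i
    rw [coeff_map, coeff_map]
    exact Ideal.Quotient.eq.2 (Ideal.mem_span_singleton.2 (hC i))
  have hev : ∀ (p : k[X][X]) (x : O), aeval (φ x) (p.map mQ) =
      φ (eval₂ (algebraMap k[X] O) x p) := by
    intro p x
    rw [aeval_def, eval₂_map]
    change eval₂ (ι.comp mQ) (φ x) p = _
    rw [hcomp, ← hom_eval₂]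
  obtain ⟨θ', hθ'⟩ := (IsIntegralClosure.isIntegral_iff (A := O)).1
    (Pool.Agent.N769.PJ.theta_int hG)
  have hroot : eval₂ (algebraMap k[X] O) θ' f = 0 := by
    apply IsFractionRing.injective O L
    rw [hom_eval₂, hθ', ← IsScalarTower.algebraMap_eq, hG.root, map_zero]
  have hθ0 : φ θ' ≠ 0 := by
    rw [Ne, Ideal.Quotient.eq_zero_iff_mem, ← HeightOneSpectrum.valuation_lt_one_iff_mem (K := L)]
    intro h1
    rw [← hθ', ] at hθ
    exact absurd h1 (by
      show ¬ (𝔮.valuation L (algebraMap O L θ') < 1)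
      rw [hθ]; exact lt_irrefl _)
  have ht : aeval (φ θ') H = 0 := by
    have h1 := hev f θ'
    rw [hroot, map_zero, hfH, map_mul, aeval_X] at h1
    exact (mul_eq_zero.1 h1).resolve_left hθ0
  obtain ⟨e, he1, he2, he3⟩ := roots_ff hHm hhi hHd (by omega) ht
  have hminp : ∀ i, i ≠ 0 → minpoly (k[X] ⧸ Ideal.span {Q}) (e i) = H := fun i hi =>
    (minpoly.eq_of_irreducible_of_monic hhi (he3 i hi) hHm).symm
  choose a ha using fun i => Ideal.Quotient.mk_surjective (I := 𝔮.asIdeal) (e i)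
  have hXH : ∀ i, aeval (e i) (X * H) = 0 := by
    intro i
    rw [map_mul, aeval_X]
    by_cases hi : i = 0
    · rw [hi, he2, zero_mul]
    · rw [he3 i hi, mul_zero]
  have hfin' : Finite (k[X] ⧸ Ideal.span {Q}) := Finite.of_injective _ ι.injective
  have hsep : (X * H : (k[X] ⧸ Ideal.span {Q})[X]).Separable := by
    refine Separable.mul separable_X (PerfectField.separable_of_irreducible hhi)
      (cop_X hhi (by omega))
  have hc : ∀ i, Valued.v (Γ₀ := WithZero (Multiplicative ℤ)) ((f.map (emb L 𝔮)).coeff i) ≤ 1 := by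
    intro i
    rw [coeff_map, vemb]
    exact valO_le_one 𝔮 _
  have hz : ∀ i, ∃ z : 𝔮.adicCompletion L, (f.map (emb L 𝔮)).eval z = 0 ∧
      Valued.v (Γ₀ := WithZero (Multiplicative ℤ)) (z - em L 𝔮 (a i)) < 1 := by
    intro i
    refine hensel _ hc (em_le 𝔮 _) ?_ ?_
    · rw [eval_em, em_lt, ← Ideal.Quotient.eq_zero_iff_mem, ← hφ, ← hev, ha, hfH, hXH]
    · rw [derivative_map, eval_em, em_eq, ← Ideal.Quotient.eq_zero_iff_mem, ← hφ, ← hev, ha,
        ← derivative_map, hfH]
      exact hsep.aeval_derivative_ne_zero (hXH i)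
  choose z hz1 hz2 using hz
  have hzle : ∀ i, Valued.v (Γ₀ := WithZero (Multiplicative ℤ)) (z i) ≤ 1 := by
    intro i
    have e1 : z i = (z i - em L 𝔮 (a i)) + em L 𝔮 (a i) := by ring
    rw [e1]
    exact (Valuation.map_add _ _ _).trans (max_le (hz2 i).le (em_le 𝔮 _))
  refine ⟨z, hz1, hzle, ?_, ?_, ?_⟩
  · have e1 : z 0 = (z 0 - em L 𝔮 (a 0)) + em L 𝔮 (a 0) := by ring
    rw [e1]
    refine lt_of_le_of_lt (Valuation.map_add _ _ _) (max_lt (hz2 0) ?_)
    rw [em_lt, ← Ideal.Quotient.eq_zero_iff_mem, ha, he2]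
  · intro i j hij
    have e1 : z i - z j = em L 𝔮 (a i - a j) +
        ((z i - em L 𝔮 (a i)) - (z j - em L 𝔮 (a j))) := by
      rw [map_sub]; ring
    have h1 : Valued.v (Γ₀ := WithZero (Multiplicative ℤ)) (em L 𝔮 (a i - a j)) = 1 := by
      rw [em_eq, ← Ideal.Quotient.eq_zero_iff_mem, map_sub, ha, ha, sub_eq_zero]
      exact fun h => hij (he1 h)
    rw [e1, Valuation.map_add_eq_of_lt_left _ (by
      rw [h1]
      exact lt_of_le_of_lt (Valuation.map_sub _ _ _) (max_lt (hz2 i) (hz2 j))), h1]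
  · intro i hi p
    have hpc : ∀ n, Valued.v (Γ₀ := WithZero (Multiplicative ℤ)) ((p.map (emb L 𝔮)).coeff n) ≤ 1 := by
      intro i
      rw [coeff_map, vemb]
      exact valO_le_one 𝔮 _
    have h1 := lip (Valued.v (R := 𝔮.adicCompletion L)) _ hpc (hzle i) (em_le 𝔮 (a i))
    have h2 := lt_of_le_of_lt h1 (hz2 i)
    have h3 : Valued.v (Γ₀ := WithZero (Multiplicative ℤ)) ((p.map (emb L 𝔮)).eval (z i)) < 1 ↔
        Valued.v (Γ₀ := WithZero (Multiplicative ℤ))
          ((p.map (emb L 𝔮)).eval (em L 𝔮 (a i))) < 1 := by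
      constructor
      · intro h
        have e1 : (p.map (emb L 𝔮)).eval (em L 𝔮 (a i)) = (p.map (emb L 𝔮)).eval (z i) -
          ((p.map (emb L 𝔮)).eval (z i) - (p.map (emb L 𝔮)).eval (em L 𝔮 (a i))) := by ring
        rw [e1]
        exact lt_of_le_of_lt (Valuation.map_sub _ _ _) (max_lt h h2)
      · intro h
        have e1 : (p.map (emb L 𝔮)).eval (z i) = (p.map (emb L 𝔮)).eval (em L 𝔮 (a i)) +
          ((p.map (emb L 𝔮)).eval (z i) - (p.map (emb L 𝔮)).eval (em L 𝔮 (a i))) := by ring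
        rw [e1]
        exact lt_of_le_of_lt (Valuation.map_add _ _ _) (max_lt h h2)
    rw [h3, eval_em, em_lt, ← Ideal.Quotient.eq_zero_iff_mem, ← hφ, ← hev, ha, ← hminp i hi]
    exact minpoly.dvd_iff.symm

end ov

end Pool.Agent.N704.PJ
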